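import Pool.Agent.Run7.h408.EF.Stm

/-!
# EF / StRA: one real variable
-/

set_option autoImplicit false

open Set Filter Topology MeasureTheory ProbabilityTheory
open scoped Real ContDiff
open Pool.Agent.Y262.QE Pool.Agent.Y264.QR

noncomputable section

namespace Pool.Agent.Run7.h354.EF

open Pool.Agent.Run7.h408.EF

theorem stRA (hAE : StAE) (hFTC : StFTC) (hDens : StDens) (hQL : StQL) : StRA := by
  intro E κ Ar β K hK h0 hmono hLp hder hA hAL hAd hW
  have c1 := hAE E κ K h0 hmono hLp hder
  -- positivity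
  obtain ⟨J, hJ⟩ : ∃ J : ℕ, ∀ j, J ≤ j → ∀ t, 0 < E j t := by
    have h1 := hW 0
    have h2 : (0 : ℝ) < 4 * π / Ar 0 := div_pos (by positivity) (hA 0)
    obtain ⟨J, hJ⟩ := eventually_atTop.1 (h1.eventually (lt_mem_nhds h2))
    refine ⟨J, fun j hj t => ?_⟩
    rcases (h0 j t).eq_or_lt with h3 | h3
    · exfalso
      have h4 := hJ j hj
      have h5 := hLp j 0 t
      rw [← h3, mul_zero] at h5
      have h6 : E j 0 = 0 := le_antisymm h5 (h0 j 0)
      rw [h6, zero_div] at h4
      exact lt_irrefl _ h4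
    · exact h3
  have hftc : ∀ j, J ≤ j → (∀ᵐ t : ℝ, |κ j t| ≤ K) ∧ AEMeasurable (κ j) volume ∧
      ∀ α b : ℝ, α ≤ b → ∫ t in α..b, κ j t = Real.log (E j α) - Real.log (E j b) := fun j hj =>
    hFTC (E j) (κ j) K (fun t => hJ j hj t) (hLp j) (c1.mono fun t ht => ht j)
  have hβ := hFTC Ar (fun t => - β t) K hA hAL (ae_of_all _ fun t => by
    have h1 := hAd t
    have e : -(-β t * Ar t) = β t * Ar t := by ring
    rw [e]
    exact h1)
  have hβK : ∀ᵐ t : ℝ, |β t| ≤ K := hβ.1.mono fun t ht => by rwa [abs_neg] at ht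
  have hβm : AEMeasurable β volume := by
    have h1 := hβ.2.1.neg
    have e : (-fun t => - β t) = β := by
      funext t
      simp
    rwa [e] at h1
  have hβi : ∀ α b : ℝ, α ≤ b → ∫ t in α..b, β t = Real.log (Ar b) - Real.log (Ar α) := by
    intro α b hαb
    have h1 := hβ.2.2 α b hαb
    rw [intervalIntegral.integral_neg] at h1
    linarith
  have c2 : ∀ χ : ℝ → ℝ, Integrable χ volume →
      Tendsto (fun j => ∫ t, χ t * κ (j + J) t) atTop (𝓝 (∫ t, χ t * β t)) := by
    refine hDens (fun j => κ (j + J)) β K (fun j => (hftc (j + J) (by omega)).2.1) hβm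
      (fun j => (hftc (j + J) (by omega)).1) hβK ?_
    intro α b hαb
    have hlog : ∀ t : ℝ, Tendsto
        (fun j : ℕ => Real.log (E (j + J) t / (((j + J : ℕ) : ℝ) + 1))) atTop
        (𝓝 (Real.log (4 * π / Ar t))) := by
      intro t
      have h2 := (tendsto_add_atTop_iff_nat J).2 (hW t)
      exact h2.log (div_pos (by positivity) (hA _)).ne'
    have h3 := (hlog α).sub (hlog b)
    have e1 : Real.log (4 * π / Ar α) - Real.log (4 * π / Ar b) = ∫ t in α..b, β t := by
      rw [hβi α b hαb, Real.log_div (by positivity) (hA _).ne',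
        Real.log_div (by positivity) (hA _).ne']
      ring
    rw [e1] at h3
    refine h3.congr fun j => ?_
    rw [(hftc (j + J) (by omega)).2.2 α b hαb]
    have hj : ((j + J : ℕ) : ℝ) + 1 ≠ 0 := by positivity
    rw [Real.log_div (hJ (j + J) (by omega) _).ne' hj,
      Real.log_div (hJ (j + J) (by omega) _).ne' hj]
    ring
  refine ⟨c1, fun χ hχ =>
    (tendsto_add_atTop_iff_nat (f := fun j => ∫ t, χ t * κ j t) J).1 (c2 χ hχ), ?_⟩
  intro J' hJ'
  have hac : gaussianReal 0 1 ≪ (volume : Measure ℝ) := gaussianReal_absolutelyContinuous 0 one_ne_zero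
  have hac' : (volume : Measure ℝ) ≪ gaussianReal 0 1 := gaussianReal_absolutelyContinuous' 0 one_ne_zero
  have hlim := hQL ℝ (gaussianReal 0 1) (fun j => κ (j + J)) β K
    (fun j => ((hftc (j + J) (by omega)).2.1.aestronglyMeasurable).mono_ac hac)
    (hβm.aestronglyMeasurable.mono_ac hac)
    (fun j => hac.ae_le (hftc (j + J) (by omega)).1) (hac.ae_le hβK) (by
      intro χ hχ
      have hχ' : Integrable (fun t => gaussianPDFReal 0 1 t * χ t) volume := by
        rw [gaussianReal_of_var_ne_zero 0 one_ne_zero] at hχ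
        have h1 := (integrable_withDensity_iff_integrable_smul' (measurable_gaussianPDF 0 1)
          (ae_of_all _ fun x => gaussianPDF_lt_top)).1 hχ
        refine h1.congr (ae_of_all _ fun x => ?_)
        show (gaussianPDF 0 1 x).toReal • χ x = _
        rw [toReal_gaussianPDF, smul_eq_mul]
      have h1 := c2 _ hχ'
      have e : ∀ f : ℝ → ℝ, ∫ t, χ t * f t ∂(gaussianReal 0 1) =
          ∫ t, gaussianPDFReal 0 1 t * χ t * f t := by
        intro f
        rw [integral_gaussianReal_eq_integral_smul one_ne_zero]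
        refine integral_congr_ae (ae_of_all _ fun t => ?_)
        show gaussianPDFReal 0 1 t • (χ t * f t) = gaussianPDFReal 0 1 t * χ t * f t
        rw [smul_eq_mul]
        ring
      simp only [e]
      exact h1)
    (fun k => J' k - J) (tendsto_sub_atTop_nat J |>.comp hJ')
  have hlim' := hac'.ae_le hlim
  filter_upwards [hlim'] with t ht L hL
  refine ht L (hL.congr' ?_)
  filter_upwards [hJ'.eventually_ge_atTop J] with k hk
  rw [Nat.sub_add_cancel hk]

end Pool.Agent.Run7.h354.EF
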