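import Pool.Agent.Run7.h408.EF.Stm

/-!
# EF / StSpec: an eigenbasis with its gradients is a system of eigenvectors in the form domain
-/

set_option autoImplicit false

open Set Filter Topology MeasureTheory
open scoped Real ContDiff
open Pool.Agent.Y262.QE Pool.Agent.Y264.QR

noncomputable section

namespace Pool.Agent.Run7.h354.EF

open Pool.Agent.Run7.h408.EF

theorem conf_one {M : Type} (D : Data M) : D.conf (fun _ => 1) = D := by
  cases D
  simp [Data.conf]

theorem wm_one {M : Type} [MeasurableSpace M] (μ : Measure M) : wm μ (fun _ => 1) = μ := by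
  unfold wm
  simp

theorem nsq {M : Type} [MeasurableSpace M] {μ : Measure M} {E : Type} [NormedAddCommGroup E]
    [InnerProductSpace ℝ E] (f : Lp E 2 μ) : ‖f‖ ^ 2 = ∫ x, ‖f x‖ ^ 2 ∂μ := by
  rw [← real_inner_self_eq_norm_sq, L2.inner_def]
  refine integral_congr_ae (ae_of_all _ fun x => ?_)
  exact real_inner_self_eq_norm_sq _

theorem stSpec (hFin : StFin) (hFm : StFm) (hMM : StMM) (hDen : StDenF) (hPack : StPackF)
    (hBr : StBr) (hWl : StWl) : StSpec := by
  intro M _ _ _ _ μ D hD hne u lam hE W hW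
  obtain ⟨hfin, hpos⟩ := hFin M μ D hD
  haveI := hfin
  have hμ0 : 0 < μ univ := hpos univ isOpen_univ univ_nonempty
  have hμr : 0 < μ.real univ := ENNReal.toReal_pos hμ0.ne' (measure_ne_top _ _)
  obtain ⟨i, a, hSf, hi, ha⟩ := hPack M μ D hD hne
  obtain ⟨b, hB, hF, -⟩ := hFm M μ (HF D μ) i a hSf
  have hz : (fun x : M => Real.exp ((0 : C(M, ℝ)) x)) = fun _ => 1 := by
    funext x
    simp
  obtain ⟨e, he1, he2⟩ := hBr M μ D hD i a b hSf hi ha hB hF 0 u lam (by
    rw [hz, conf_one, wm_one]; exact hE)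
  have hwl := hWl M μ D hD hne i a b hSf hi ha hB 0
  have hev : ∀ j, Ev a (b 0) j = lam j := fun j => hMM (HF D μ) a (b 0) (hF 0) e lam he2 j
  have hb0 : ∀ v w : HF D μ, b 0 v w = ∫ x, (v.1.fst : M → ℝ) x * (w.1.fst : M → ℝ) x ∂μ := by
    intro v w
    rw [hB]
    refine integral_congr_ae (ae_of_all _ fun x => ?_)
    have h1 := congrFun hz x
    show Real.exp ((0 : C(M, ℝ)) x) * ((i v : M → ℝ) x * (i w : M → ℝ) x) = _
    rw [hi, hi]
    have h1' : Real.exp ((0 : C(M, ℝ)) x) = 1 := h1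
    rw [h1', one_mul]
  refine ⟨hμr, ?_, a, b 0, e, hF 0, he2, ?_, ?_, ?_⟩
  · have h1 := hwl
    simp only [hev] at h1
    have h2 : ∫ x, Real.exp ((0 : C(M, ℝ)) x) ∂μ = μ.real univ := by simp
    rw [h2] at h1
    exact h1
  · intro v
    rw [ha, L2.inner_def]
    refine integral_congr_ae (ae_of_all _ fun x => ?_)
    exact real_inner_self_eq_norm_sq _
  · intro v
    rw [hb0]
    refine integral_congr_ae (ae_of_all _ fun x => ?_)
    exact (sq _).symm
  · intro j
    have hfst : ((e j).1.fst : M → ℝ) =ᵐ[μ] u j := by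
      have h1 := he1 j
      rw [hi] at h1
      exact h1
    refine ⟨hfst, ?_⟩
    obtain ⟨F, hFC, hF1, hF2⟩ := (hW j).ex
    have humem : MemLp (u j) 2 μ := (hE.eig j).mem
    have hWmem : MemLp (W j) 2 μ := (hW j).mem
    set U : Lp ℝ 2 μ := humem.toLp (u j) with hU
    set Wt : Lp ℂ 2 μ := hWmem.toLp (W j) with hWt
    set w : WithLp 2 (Lp ℝ 2 μ × Lp ℂ 2 μ) := WithLp.toLp 2 (U, Wt) with hw
    have hUc : (U : M → ℝ) =ᵐ[μ] u j := humem.coeFn_toLp
    have hWc : (Wt : M → ℂ) =ᵐ[μ] W j := hWmem.coeFn_toLp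
    have hw1 : w.fst = U := rfl
    have hw2 : w.snd = Wt := rfl
    obtain ⟨hd1, hd2⟩ := hDen M μ D hD
    -- the pair is in the form domain
    have hwmem : w ∈ HF D μ := by
      choose v hv hvf hvs using fun k => hd1 (F k) (hFC k)
      have hcl : IsClosed (HF D μ : Set (WithLp 2 (Lp ℝ 2 μ × Lp ℂ 2 μ))) :=
        Submodule.isClosed_topologicalClosure _
      refine hcl.mem_of_tendsto (f := v) (b := atTop) ?_ (Eventually.of_forall hv)
      rw [tendsto_iff_norm_sub_tendsto_zero]
      have h1 : ∀ k, ‖v k - w‖ ^ 2 = (∫ x, (F k x - u j x) ^ 2 ∂μ) +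
          ∫ x, ‖D.gr (F k) x - W j x‖ ^ 2 ∂μ := by
        intro k
        rw [WithLp.prod_norm_sq_eq_of_L2, WithLp.sub_fst, WithLp.sub_snd, hw1, hw2, nsq, nsq]
        congr 1
        · refine integral_congr_ae ?_
          filter_upwards [hvf k, hUc, Lp.coeFn_sub (v k).fst U] with x h1 h2 h3
          rw [h3, Pi.sub_apply, h1, h2, Real.norm_eq_abs, sq_abs]
        · refine integral_congr_ae ?_
          filter_upwards [hvs k, hWc, Lp.coeFn_sub (v k).snd Wt] with x h1 h2 h3
          rw [h3, Pi.sub_apply, h1, h2]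
      have h2 : Tendsto (fun k => ‖v k - w‖ ^ 2) atTop (𝓝 0) := by
        simp only [h1]
        have := hF1.add hF2
        rwa [add_zero] at this
      have h3 := h2.sqrt
      rw [Real.sqrt_zero] at h3
      refine h3.congr fun k => ?_
      exact Real.sqrt_sq (norm_nonneg _)
    have hUe : (e j).1.fst = U := Lp.ext (hfst.trans hUc.symm)
    -- the weak equation
    have hweak : ∀ v ∈ HF D μ, inner ℝ Wt v.snd = lam j * inner ℝ U v.fst := by
      intro v hv
      obtain ⟨G, g, hG, hlim⟩ := hd2 v hv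
      have h1 : ∀ k, inner ℝ Wt (g k).snd = lam j * inner ℝ U (g k).fst := by
        intro k
        obtain ⟨c1, -, c2, c3⟩ := hG k
        rw [L2.inner_def, L2.inner_def]
        have e1 : ∫ x, inner ℝ ((Wt : M → ℂ) x) (((g k).snd : M → ℂ) x) ∂μ =
            ∫ x, inner ℝ (W j x) (D.gr (G k) x) ∂μ := by
          refine integral_congr_ae ?_
          filter_upwards [hWc, c3] with x h1 h2
          rw [h1, h2]
        have e2 : ∫ x, inner ℝ ((U : M → ℝ) x) (((g k).fst : M → ℝ) x) ∂μ =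
            ∫ x, u j x * G k x ∂μ := by
          refine integral_congr_ae ?_
          filter_upwards [hUc, c2] with x h1 h2
          rw [h1, h2, real_inner_eq_re_inner, RCLike.inner_apply]
          simp [mul_comm]
        rw [e1, e2]
        exact (hW j).eq (G k) c1
      have hsnd : Continuous (fun x : WithLp 2 (Lp ℝ 2 μ × Lp ℂ 2 μ) => x.snd) :=
        WithLp.continuous_snd 2 _ _
      have hfs : Continuous (fun x : WithLp 2 (Lp ℝ 2 μ × Lp ℂ 2 μ) => x.fst) :=
        WithLp.continuous_fst 2 _ _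
      have l1 : Tendsto (fun k => inner ℝ Wt (g k).snd) atTop (𝓝 (inner ℝ Wt v.snd)) :=
        tendsto_const_nhds.inner ((hsnd.tendsto v).comp hlim)
      have l2 : Tendsto (fun k => lam j * inner ℝ U (g k).fst) atTop
          (𝓝 (lam j * inner ℝ U v.fst)) :=
        (tendsto_const_nhds.inner ((hfs.tendsto v).comp hlim)).const_mul _
      refine tendsto_nhds_unique l1 ?_
      simp only [h1]
      exact l2
    have hdiff : (e j).1 - w ∈ HF D μ := Submodule.sub_mem _ (e j).2 hwmem
    set d : HF D μ := ⟨(e j).1 - w, hdiff⟩ with hd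
    have h1 := he2.eig j d
    rw [ha (e j) d, hb0 (e j) d] at h1
    have h2 := hweak d.1 d.2
    have h3 : inner ℝ U d.1.fst = ∫ x, ((e j).1.fst : M → ℝ) x * (d.1.fst : M → ℝ) x ∂μ := by
      rw [hUe, L2.inner_def]
      refine integral_congr_ae (ae_of_all _ fun x => ?_)
      show inner ℝ ((U : M → ℝ) x) ((d.1.fst : M → ℝ) x) = (U : M → ℝ) x * (d.1.fst : M → ℝ) x
      rw [real_inner_eq_re_inner, RCLike.inner_apply]
      simp [mul_comm]
    rw [h3, ← h1] at h2
    have hds : d.1.snd = (e j).1.snd - Wt := by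
      rw [hd]
      show ((e j).1 - w).snd = _
      rw [WithLp.sub_snd, hw2]
    have h4 : inner ℝ ((e j).1.snd - Wt) d.1.snd = (0 : ℝ) := by
      rw [inner_sub_left, h2, sub_self]
    rw [hds] at h4
    have h5 : (e j).1.snd - Wt = 0 := inner_self_eq_zero.1 h4
    have h6 : (e j).1.snd = Wt := sub_eq_zero.1 h5
    rw [h6]
    exact hWc

end Pool.Agent.Run7.h354.EF
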